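import Mathlib
import Pool.Agent.W136.K9.Tab

set_option autoImplicit false

namespace Pool.Agent.W136.K9

def D1_0 : List (List ℕ × List ℕ) :=
  [([], [0x10000000, 0x10000101])]

theorem D1_0_ok : checkLevel 1 T1 T2 1 0 D1_0 = true := by decide +kernel

theorem D1_0_len : D1_0.length = 1 := by decide +kernel

end Pool.Agent.W136.K9
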