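import Mathlib
import Pool.Agent.W136.K9.Tab

set_option autoImplicit false

namespace Pool.Agent.W136.K9

def D2_0 : List (List ℕ × List ℕ) :=
  [([], [0x210000000, 0x210001101, 0x201001102, 0x120001003])]

theorem D2_0_ok : checkLevel 2 T2 T3 2 0 D2_0 = true := by decide +kernel

theorem D2_0_len : D2_0.length = 1 := by decide +kernel

end Pool.Agent.W136.K9
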