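import Mathlib
import Pool.Agent.W136.K9.Tab

set_option autoImplicit false

namespace Pool.Agent.W136.K9

def D3_0 : List (List ℕ × List ℕ) :=
  [([], [0x3210000000, 0x3210001001, 0x3201001002, 0x3210002003, 0x3102001004, 0x3120002005, 0x3021002006, 0x3210003007]),
   ([], [0x1320002000, 0x3210004001, 0x1320003002, 0x2130002103, 0x321004004, 0x3210005105, 0x132002106, 0x2310001107])]

theorem D3_0_ok : checkLevel 3 T3 T4 6 0 D3_0 = true := by decide +kernel

theorem D3_0_len : D3_0.length = 2 := by decide +kernel

end Pool.Agent.W136.K9
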