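import Mathlib
import Pool.Agent.W136.K9.Tab

set_option autoImplicit false

namespace Pool.Agent.W136.K9

def D4_0 : List (List ℕ × List ℕ) :=
  [([0x3bd3cfcbc7c03e], [0x43210000101, 0x43201000102, 0x43210001003, 0x43102000104, 0x43120001005, 0x43021001006, 0x43210002007, 0x42103000108, 0x42130001009, 0x4203100100a, 0x4231000200b, 0x4103200100c, 0x4132000200d, 0x4032100200e, 0x4321000300f]),
   ([], [0x34210000100, 0x2143001001, 0x43210004002, 0x43210005003, 0x43120004004, 0x43120005005, 0x43210006006, 0x43210007107, 0x32140001008, 0x43210008009, 0x4021300500a, 0x4321000900b, 0x4012300500c, 0x4312000900d, 0x4021300710e, 0x4321000a00f]),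
   ([], [0x34210001000, 0x34210005001, 0x34201005002, 0x4321000b103, 0x34102006004, 0x4321000c005, 0x4320100c006, 0x4321000d007, 0x32410002008, 0x34210009009, 0x3420100900a, 0x2143000a10b, 0x3210400710c, 0x4321000e00d, 0x4320100e00e, 0x2143000910f]),
   ([], [0x34210002000, 0x34210007101, 0x34201007102, 0x3421000d003, 0x34102007104, 0x3412000d005, 0x3402100d006, 0x4321000f007, 0x34210003008, 0x3421000a009, 0x3420100a00a, 0x2134000910b, 0x3410200a00c, 0x1234000910d, 0x234100910e, 0x2143000810f]),
   ([], [0x13420005000, 0x2431007101, 0x13420007102, 0x1023400e003, 0x2043100c004, 0x234100d005, 0x3014200d106, 0x30412007007, 0x3142000c008, 0x2104300d109, 0x1324000d00a, 0x2140300700b, 0x4321001000c, 0x1240300c10d, 0x341200c10e, 0x3041200510f]),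
   ([], [0x32410004000, 0x3421006001, 0x12430006002, 0x1032400c003, 0x23401006004, 0x3142000f105, 0x1230400c006, 0x3142000d107, 0x32410006008, 0x321400c009, 0x2043100f10a, 0x2043100d10b, 0x3210400c00c, 0x1342000d10d, 0x243100d10e, 0x3142000b00f])]

theorem D4_0_ok : checkLevel 4 T4 T5 17 0 D4_0 = true := by decide +kernel

theorem D4_0_len : D4_0.length = 6 := by decide +kernel

end Pool.Agent.W136.K9
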