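import Mathlib

set_option autoImplicit false

namespace Pool.Agent.W136.K9

/-- A drawing of the two colour classes of `G` in two planes (as in the frozen statement). -/
def Val {V : Type} (G : SimpleGraph V) (c : V → V → Fin 2) (p : Fin 2 → V → ℂ)
    (γ : Fin 2 → V → V → ℝ → ℂ) : Prop :=
  (∀ u v : V, G.Adj u v → c u v = c v u) ∧
    (∀ i : Fin 2, Function.Injective (p i)) ∧
    (∀ i : Fin 2, ∀ u v : V, G.Adj u v → c u v = i →
      ContinuousOn (γ i u v) (Set.Icc (0:ℝ) 1) ∧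
      Set.InjOn (γ i u v) (Set.Icc (0:ℝ) 1) ∧
      γ i u v 0 = p i u ∧ γ i u v 1 = p i v ∧
      (∀ t : ℝ, 0 ≤ t → t ≤ 1 → γ i v u t = γ i u v (1 - t)) ∧
      ∀ t : ℝ, 0 < t → t < 1 → ∀ w : V, γ i u v t ≠ p i w)

/-- The set of crossing tuples (as in the frozen statement). -/
def Cr {V : Type} (G : SimpleGraph V) (c : V → V → Fin 2)
    (γ : Fin 2 → V → V → ℝ → ℂ) : Set (Fin 2 × V × V × V × V × ℂ) :=
  {x : Fin 2 × V × V × V × V × ℂ |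
    G.Adj x.2.1 x.2.2.1 ∧ G.Adj x.2.2.2.1 x.2.2.2.2.1 ∧
    c x.2.1 x.2.2.1 = x.1 ∧ c x.2.2.2.1 x.2.2.2.2.1 = x.1 ∧
    ¬ (x.2.1 = x.2.2.2.1 ∧ x.2.2.1 = x.2.2.2.2.1) ∧
    ¬ (x.2.1 = x.2.2.2.2.1 ∧ x.2.2.1 = x.2.2.2.1) ∧
    (∃ t : ℝ, 0 < t ∧ t < 1 ∧ γ x.1 x.2.1 x.2.2.1 t = x.2.2.2.2.2) ∧
    (∃ t : ℝ, 0 < t ∧ t < 1 ∧ γ x.1 x.2.2.2.1 x.2.2.2.2.1 t = x.2.2.2.2.2)}

/-- The two colour classes are isomorphic. -/
def IsoCl {V : Type} (G : SimpleGraph V) (c : V → V → Fin 2) : Prop :=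
  Nonempty (SimpleGraph.fromRel (fun u v => G.Adj u v ∧ c u v = 0) ≃g
          SimpleGraph.fromRel (fun u v => G.Adj u v ∧ c u v = 1))

/-- Subtask DRAW. An explicit straight-line drawing of `K₉` in two planes with one crossing
(one crossing is counted eight times in `Cr`). -/
def S_draw : Prop :=
  ∃ (c : Fin 9 → Fin 9 → Fin 2) (p : Fin 2 → Fin 9 → ℂ) (γ : Fin 2 → Fin 9 → Fin 9 → ℝ → ℂ),
    Val (⊤ : SimpleGraph (Fin 9)) c p γ ∧ (Cr (⊤ : SimpleGraph (Fin 9)) c γ).Finite ∧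
      (Cr (⊤ : SimpleGraph (Fin 9)) c γ).ncard ≤ 8

/-- Subtask TRANS. In an optimal drawing with isomorphic colour classes and fewer than sixteen
crossing tuples there is no crossing at all. -/
def S_trans : Prop :=
  ∀ (V : Type) [Finite V] (G : SimpleGraph V) (c : V → V → Fin 2) (p : Fin 2 → V → ℂ)
    (γ : Fin 2 → V → V → ℝ → ℂ),
    Val G c p γ → (Cr G c γ).Finite → IsoCl G c →
    (∀ (c' : V → V → Fin 2) (p' : Fin 2 → V → ℂ) (γ' : Fin 2 → V → V → ℝ → ℂ),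
      Val G c' p' γ' → (Cr G c' γ').Finite → (Cr G c γ).ncard ≤ (Cr G c' γ').ncard) →
    (Cr G c γ).ncard < 16 → Cr G c γ = ∅

/-- The relation `A` connects the list `l`: every entry is related to a later one. -/
def ConnL {V : Type} (A : V → V → Prop) : List V → Prop
  | [] => False
  | [_] => True
  | v :: w :: l => (∃ x ∈ w :: l, A v x) ∧ ConnL A (w :: l)

/-- Subtask TOP5. A plane drawing has no `K₅` minor (branch sets given as lists). -/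
def S_top5 : Prop :=
  ∀ (V : Type) (G : SimpleGraph V) (c : V → V → Fin 2) (p : Fin 2 → V → ℂ)
    (γ : Fin 2 → V → V → ℝ → ℂ) (i : Fin 2),
    Val G c p γ → Cr G c γ = ∅ →
    ∀ B : Fin 5 → List V,
      (∀ a, ConnL (fun u v => G.Adj u v ∧ c u v = i) (B a)) →
      (∀ a b, a ≠ b → ∀ x ∈ B a, ∀ y ∈ B b, x ≠ y) →
      (∀ a b, a < b → ∃ x ∈ B a, ∃ y ∈ B b, G.Adj x y ∧ c x y = i) → False

/-- Subtask TOP33. A plane drawing has no `K₃,₃` minor; the parts are `{0,1,2}` and `{3,4,5}`. -/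
def S_top33 : Prop :=
  ∀ (V : Type) (G : SimpleGraph V) (c : V → V → Fin 2) (p : Fin 2 → V → ℂ)
    (γ : Fin 2 → V → V → ℝ → ℂ) (i : Fin 2),
    Val G c p γ → Cr G c γ = ∅ →
    ∀ B : Fin 6 → List V,
      (∀ a, ConnL (fun u v => G.Adj u v ∧ c u v = i) (B a)) →
      (∀ a b, a ≠ b → ∀ x ∈ B a, ∀ y ∈ B b, x ≠ y) →
      (∀ a b : Fin 6, a.1 < 3 → 3 ≤ b.1 → ∃ x ∈ B a, ∃ y ∈ B b, G.Adj x y ∧ c x y = i) → False

end Pool.Agent.W136.K9
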