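import Mathlib
import Pool.Agent.W136.K9.Defs

set_option autoImplicit false

namespace Pool.Agent.W136.K9

/-! ### The checker -/

/-- Colour of the pair `{u, v}` in the code `M` (bit `8 * max + min`). -/
def col (M u v : ℕ) : Bool := bif Nat.blt u v then M.testBit (8 * v + u) else M.testBit (8 * u + v)

def connB (E : ℕ) (b : Bool) : List ℕ → Bool
  | [] => false
  | [_] => true
  | v :: w :: l => ((w :: l).any fun x => col E v x == b) && connB E b (w :: l)

def touch (E : ℕ) (b : Bool) (l l' : List ℕ) : Bool := l.any fun x => l'.any fun y => col E x y == b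

def nodupB (n : ℕ) : ℕ → List ℕ → Bool
  | _, [] => true
  | m, v :: l => !(m.testBit v) && (Nat.ble v n && nodupB n (m ||| 1 <<< v) l)

def parse : ℕ → ℕ → List ℕ → List (List ℕ)
  | 0, _, _ => []
  | f + 1, x, acc =>
    bif Nat.beq (x % 16) 15 then acc :: parse f (x / 16) []
    else bif Nat.beq (x % 16) 14 then []
    else parse f (x / 16) (x % 16 :: acc)

def touchAll (E : ℕ) (b : Bool) : List (List ℕ) → Bool
  | [] => true
  | l :: L => L.all (fun l' => touch E b l l') && touchAll E b L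

/-- Check of the branch sets `L` (five for `K₅`, six for `K₃,₃`). -/
def minorOK (n E : ℕ) (b k5 : Bool) (L : List (List ℕ)) : Bool :=
  nodupB n 0 L.flatten && (L.all (fun l => connB E b l) &&
    bif k5 then Nat.beq L.length 5 && touchAll E b L
    else Nat.beq L.length 6 && (L.take 3).all (fun l => (L.drop 3).all fun l' => touch E b l l'))

def mS (x : ℕ) : ℕ := x / 4 % 256

def modelOK (n M x : ℕ) : Bool :=
  minorOK n (M ||| ((bif x.testBit 0 then mS x else (2 ^ n - 1) ^^^ mS x) <<< (8 * n)))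
    (x.testBit 0) (x.testBit 1) (parse 18 (x / 1024) [])

/-- Truth tables of the eight bits of a mask. -/
def XS1 : List ℕ :=
  [0xAAAAAAAAAAAAAAAAAAAAAAAAAAAAAAAAAAAAAAAAAAAAAAAAAAAAAAAAAAAAAAAA,
   0xCCCCCCCCCCCCCCCCCCCCCCCCCCCCCCCCCCCCCCCCCCCCCCCCCCCCCCCCCCCCCCCC,
   0xF0F0F0F0F0F0F0F0F0F0F0F0F0F0F0F0F0F0F0F0F0F0F0F0F0F0F0F0F0F0F0F0,
   0xFF00FF00FF00FF00FF00FF00FF00FF00FF00FF00FF00FF00FF00FF00FF00FF00,
   0xFFFF0000FFFF0000FFFF0000FFFF0000FFFF0000FFFF0000FFFF0000FFFF0000,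
   0xFFFFFFFF00000000FFFFFFFF00000000FFFFFFFF00000000FFFFFFFF00000000,
   0xFFFFFFFFFFFFFFFF0000000000000000FFFFFFFFFFFFFFFF0000000000000000,
   0xFFFFFFFFFFFFFFFFFFFFFFFFFFFFFFFF00000000000000000000000000000000]

def XS0 : List ℕ :=
  [0x5555555555555555555555555555555555555555555555555555555555555555,
   0x3333333333333333333333333333333333333333333333333333333333333333,
   0x0F0F0F0F0F0F0F0F0F0F0F0F0F0F0F0F0F0F0F0F0F0F0F0F0F0F0F0F0F0F0F0F,
   0x00FF00FF00FF00FF00FF00FF00FF00FF00FF00FF00FF00FF00FF00FF00FF00FF,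
   0x0000FFFF0000FFFF0000FFFF0000FFFF0000FFFF0000FFFF0000FFFF0000FFFF,
   0x00000000FFFFFFFF00000000FFFFFFFF00000000FFFFFFFF00000000FFFFFFFF,
   0x0000000000000000FFFFFFFFFFFFFFFF0000000000000000FFFFFFFFFFFFFFFF,
   0x00000000000000000000000000000000FFFFFFFFFFFFFFFFFFFFFFFFFFFFFFFF]

def full : ℕ := 0xFFFFFFFFFFFFFFFFFFFFFFFFFFFFFFFFFFFFFFFFFFFFFFFFFFFFFFFFFFFFFFFF

def up : List ℕ → ℕ → ℕ
  | [], _ => full
  | x :: xs, S => bif S.testBit 0 then x &&& up xs (S / 2) else up xs (S / 2)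

def covM (x : ℕ) : ℕ := bif x.testBit 0 then up XS1 (mS x) else up XS0 (mS x)

def orAll (f : ℕ → ℕ) : List ℕ → ℕ
  | [] => 0
  | x :: l => f x ||| orAll f l

/-- Digits, lowest first. -/
def digs : ℕ → ℕ → List ℕ
  | 0, _ => []
  | f + 1, x => x % 16 :: digs f (x / 16)

def isoRow (E M' : ℕ) (s : Bool) (i v : ℕ) : ℕ → List ℕ → Bool
  | _, [] => true
  | j, w :: l => (col E v w == xor s (M'.testBit (8 * j + i))) && isoRow E M' s i v (j + 1) l

def isoAll (E M' : ℕ) (s : Bool) : ℕ → List ℕ → Bool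
  | _, [] => true
  | i, v :: l => isoRow E M' s i v (i + 1) l && isoAll E M' s (i + 1) l

def entry (T k : ℕ) : ℕ := (T >>> (64 * k)) % 2 ^ 64

def isoOK (n T' len' M I : ℕ) : Bool :=
  Nat.blt (I / 4096 % 4096) len' &&
    (nodupB n 0 (digs (n + 1) (I / 16777216)) &&
      isoAll (M ||| ((I % 256) <<< (8 * n))) (entry T' (I / 4096 % 4096)) (I.testBit 8) 0
        (digs (n + 1) (I / 16777216)))

def checkRep (n T' len' M : ℕ) (ms is : List ℕ) : Bool :=
  Nat.blt M (2 ^ (8 * n)) && (ms.all (fun x => modelOK n M x) && (is.all (fun I => isoOK n T' len' M I) &&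
    Nat.beq ((orAll covM ms ||| orAll (fun I => 1 <<< (I % 256)) is) % 2 ^ (2 ^ n)) (2 ^ (2 ^ n) - 1)))

def checkLevel (n T T' len' : ℕ) : ℕ → List (List ℕ × List ℕ) → Bool
  | _, [] => true
  | k, d :: D => checkRep n T' len' (entry T k) d.1 d.2 && checkLevel n T T' len' (k + 1) D

end Pool.Agent.W136.K9
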