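import Mathlib
import Pool.Agent.W136.K9.Check

set_option autoImplicit false

namespace Pool.Agent.W136.K9

def K5m {V : Type} (A : V → V → Prop) : Prop :=
  ∃ B : Fin 5 → List V, (∀ a, ConnL A (B a)) ∧
    (∀ a b, a ≠ b → ∀ x ∈ B a, ∀ y ∈ B b, x ≠ y) ∧
    (∀ a b, a < b → ∃ x ∈ B a, ∃ y ∈ B b, A x y)

def K33m {V : Type} (A : V → V → Prop) : Prop :=
  ∃ B : Fin 6 → List V, (∀ a, ConnL A (B a)) ∧
    (∀ a b, a ≠ b → ∀ x ∈ B a, ∀ y ∈ B b, x ≠ y) ∧
    (∀ a b : Fin 6, a.1 < 3 → 3 ≤ b.1 → ∃ x ∈ B a, ∃ y ∈ B b, A x y)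

lemma blt_iff (a b : ℕ) : Nat.blt a b = true ↔ a < b := by
  simp [Nat.blt_eq]

lemma col_of_lt (M : ℕ) {u v : ℕ} (h : u < v) : col M u v = M.testBit (8 * v + u) := by
  unfold col
  rw [(blt_iff u v).mpr h]
  rfl

lemma col_comm (M : ℕ) {u v : ℕ} (h : u ≠ v) : col M u v = col M v u := by
  have key : ∀ {a b : ℕ}, a < b → col M b a = M.testBit (8 * b + a) := by
    intro a b hab
    unfold col
    have : Nat.blt b a = false := by
      rw [Bool.eq_false_iff]
      intro hh
      have := (blt_iff b a).mp hh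
      omega
    rw [this]
    rfl
  rcases lt_or_gt_of_ne h with h' | h'
  · rw [col_of_lt M h', key h']
  · rw [col_of_lt M h', key h']

lemma connB_sound {V : Type} (A : V → V → Prop) (g : ℕ → V) (E : ℕ) (b : Bool) :
    ∀ l : List ℕ, l.Nodup → (∀ x ∈ l, ∀ y ∈ l, x ≠ y → col E x y = b → A (g x) (g y)) →
      connB E b l = true → ConnL A (l.map g)
  | [], _, _, h => by simp [connB] at h
  | [_], _, _, _ => trivial
  | v :: w :: l, hnd, hA, h => by
    simp only [connB, Bool.and_eq_true, List.any_eq_true, beq_iff_eq] at h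
    obtain ⟨⟨x, hx, hc⟩, h2⟩ := h
    have hnd' := List.nodup_cons.mp hnd
    have hvx : v ≠ x := fun e => hnd'.1 (e ▸ hx)
    refine ⟨⟨g x, ?_, hA v (by simp) x (List.mem_cons_of_mem _ hx) hvx hc⟩, ?_⟩
    · have := List.mem_map_of_mem (f := g) hx
      simpa using this
    · have := connB_sound A g E b (w :: l) hnd'.2
        (fun x hx y hy => hA x (List.mem_cons_of_mem _ hx) y (List.mem_cons_of_mem _ hy)) h2
      simpa using this

lemma nodupB_sound (n : ℕ) : ∀ (l : List ℕ) (m : ℕ), nodupB n m l = true →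
    l.Nodup ∧ (∀ x ∈ l, x ≤ n) ∧ ∀ x ∈ l, m.testBit x = false
  | [], _, _ => by simp
  | v :: l, m, h => by
    simp only [nodupB, Bool.and_eq_true, Bool.not_eq_true'] at h
    obtain ⟨h1, h2, h3⟩ := h
    obtain ⟨i1, i2, i3⟩ := nodupB_sound n l _ h3
    have hv : ∀ x ∈ l, x ≠ v ∧ m.testBit x = false := by
      intro x hx
      have := i3 x hx
      rw [Nat.testBit_lor, Bool.or_eq_false_iff] at this
      refine ⟨?_, this.1⟩
      rintro rfl
      have h4 := this.2
      rw [Nat.testBit_shiftLeft] at h4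
      simp at h4
    refine ⟨List.nodup_cons.mpr ⟨fun hh => (hv v hh).1 rfl, i1⟩, ?_, ?_⟩
    · intro x hx
      rcases List.mem_cons.mp hx with rfl | hx
      · exact Nat.le_of_ble_eq_true h2
      · exact i2 x hx
    · intro x hx
      rcases List.mem_cons.mp hx with rfl | hx
      · exact h1
      · exact (hv x hx).2

lemma touchAll_pairwise (E : ℕ) (b : Bool) : ∀ L : List (List ℕ), touchAll E b L = true →
    L.Pairwise (fun l l' => touch E b l l' = true)
  | [], _ => List.Pairwise.nil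
  | l :: L, h => by
    simp only [touchAll, Bool.and_eq_true, List.all_eq_true] at h
    exact List.Pairwise.cons h.1 (touchAll_pairwise E b L h.2)

theorem minorOK_sound {V : Type} (A : V → V → Prop) (g : ℕ → V) (n E : ℕ) (b k5 : Bool)
    (L : List (List ℕ)) (hg : ∀ x ≤ n, ∀ y ≤ n, x ≠ y → g x ≠ g y)
    (hA : ∀ x ≤ n, ∀ y ≤ n, x ≠ y → col E x y = b → A (g x) (g y))
    (h : minorOK n E b k5 L = true) : K5m A ∨ K33m A := by
  simp only [minorOK, Bool.and_eq_true, List.all_eq_true] at h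
  obtain ⟨h1, h2, h3⟩ := h
  obtain ⟨n1, n2, -⟩ := nodupB_sound n L.flatten 0 h1
  rw [List.nodup_flatten] at n1
  obtain ⟨n1, n3⟩ := n1
  have hle : ∀ l ∈ L, ∀ x ∈ l, x ≤ n := fun l hl x hx => n2 x (List.mem_flatten.mpr ⟨l, hl, hx⟩)
  have hdis : ∀ (i j : ℕ) (hi : i < L.length) (hj : j < L.length), i ≠ j →
      ∀ x ∈ L[i], ∀ y ∈ L[j], x ≠ y := by
    intro i j hi hj hij x hx y hy hxy
    rw [List.pairwise_iff_getElem] at n3
    rcases lt_or_gt_of_ne hij with h' | h'
    · exact n3 i j hi hj h' hx (hxy ▸ hy)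
    · exact n3 j i hj hi h' hy (hxy ▸ hx)
  have hconn : ∀ l ∈ L, ConnL A (l.map g) := fun l hl =>
    connB_sound A g E b l (n1 l hl)
      (fun x hx y hy => hA x (hle l hl x hx) y (hle l hl y hy)) (h2 l hl)
  have htouch : ∀ (i j : ℕ) (hi : i < L.length) (hj : j < L.length), i ≠ j →
      touch E b L[i] L[j] = true → ∃ x ∈ L[i].map g, ∃ y ∈ L[j].map g, A x y := by
    intro i j hi hj hij ht
    simp only [touch, List.any_eq_true, beq_iff_eq] at ht
    obtain ⟨x, hx, y, hy, hxy⟩ := ht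
    exact ⟨g x, List.mem_map_of_mem hx, g y, List.mem_map_of_mem hy,
      hA x (hle _ (List.getElem_mem hi) x hx) y (hle _ (List.getElem_mem hj) y hy)
        (hdis i j hi hj hij x hx y hy) hxy⟩
  have hdisg : ∀ (i j : ℕ) (hi : i < L.length) (hj : j < L.length), i ≠ j →
      ∀ x ∈ L[i].map g, ∀ y ∈ L[j].map g, x ≠ y := by
    intro i j hi hj hij x hx y hy
    obtain ⟨x', hx', rfl⟩ := List.mem_map.mp hx
    obtain ⟨y', hy', rfl⟩ := List.mem_map.mp hy
    exact hg x' (hle _ (List.getElem_mem hi) x' hx') y' (hle _ (List.getElem_mem hj) y' hy')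
      (hdis i j hi hj hij x' hx' y' hy')
  cases k5 with
  | true =>
    left
    simp only [cond_true, Bool.and_eq_true] at h3
    obtain ⟨h3, h4⟩ := h3
    have hlen : L.length = 5 := Nat.eq_of_beq_eq_true h3
    have hp := List.pairwise_iff_getElem.mp (touchAll_pairwise E b L h4)
    refine ⟨fun a => (L[a.1]'(by rw [hlen]; exact a.2)).map g, ?_, ?_, ?_⟩
    · intro a
      exact hconn _ (List.getElem_mem _)
    · intro a b' hab
      exact hdisg a.1 b'.1 _ _ (fun e => hab (Fin.ext e))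
    · intro a b' hab
      exact htouch a.1 b'.1 _ _ (Nat.ne_of_lt hab) (hp a.1 b'.1 _ _ hab)
  | false =>
    right
    simp only [cond_false, Bool.and_eq_true, List.all_eq_true] at h3
    obtain ⟨h3, h4⟩ := h3
    have hlen : L.length = 6 := Nat.eq_of_beq_eq_true h3
    refine ⟨fun a => (L[a.1]'(by rw [hlen]; exact a.2)).map g, ?_, ?_, ?_⟩
    · intro a
      exact hconn _ (List.getElem_mem _)
    · intro a b' hab
      exact hdisg a.1 b'.1 _ _ (fun e => hab (Fin.ext e))
    · intro a b' ha hb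
      refine htouch a.1 b'.1 _ _ (by omega) (h4 _ ?_ _ ?_)
      · rw [List.mem_take_iff_getElem]
        exact ⟨a.1, by omega, rfl⟩
      · rw [List.mem_drop_iff_getElem]
        refine ⟨b'.1 - 3, by omega, ?_⟩
        congr 1
        omega

end Pool.Agent.W136.K9
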