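import Mathlib
import Pool.Agent.W136.K9.Sound

set_option autoImplicit false

namespace Pool.Agent.W136.K9

lemma up_sound : ∀ (X : List ℕ) (S m : ℕ), (up X S).testBit m = true →
    ∀ (i : ℕ) (hi : i < X.length), S.testBit i = true → (X[i]).testBit m = true
  | [], _, _, _, i, hi, _ => by simp at hi
  | x :: xs, S, m, h, i, hi, hS => by
    have hrec : (up xs (S / 2)).testBit m = true := by
      unfold up at h
      cases hb : S.testBit 0 with
      | true => rw [hb, cond_true, Nat.testBit_land, Bool.and_eq_true] at h; exact h.2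
      | false => rw [hb, cond_false] at h; exact h
    cases i with
    | zero =>
      unfold up at h
      rw [hS, cond_true, Nat.testBit_land, Bool.and_eq_true] at h
      exact h.1
    | succ i =>
      have hS' : (S / 2).testBit i = true := by rw [Nat.testBit_div_two]; exact hS
      exact up_sound xs (S / 2) m hrec i (by simpa using hi) hS'

lemma XS1_spec : ∀ i < 8, ∀ m < 256, (XS1.getD i 0).testBit m = m.testBit i := by
  decide +kernel

lemma XS0_spec : ∀ i < 8, ∀ m < 256, (XS0.getD i 0).testBit m = !(m.testBit i) := by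
  decide +kernel

lemma orAll_sound (f : ℕ → ℕ) (m : ℕ) : ∀ l : List ℕ, (orAll f l).testBit m = true →
    ∃ x ∈ l, (f x).testBit m = true
  | [], h => by simp [orAll] at h
  | x :: l, h => by
    rw [orAll, Nat.testBit_lor, Bool.or_eq_true] at h
    rcases h with h | h
    · exact ⟨x, by simp, h⟩
    · obtain ⟨y, hy, h'⟩ := orAll_sound f m l h
      exact ⟨y, List.mem_cons_of_mem _ hy, h'⟩

lemma isoRow_sound (E M' : ℕ) (s : Bool) (i v : ℕ) : ∀ (l : List ℕ) (j : ℕ),
    isoRow E M' s i v j l = true → ∀ (k : ℕ) (hk : k < l.length),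
      col E v l[k] = xor s (M'.testBit (8 * (j + k) + i))
  | [], _, _, k, hk => by simp at hk
  | w :: l, j, h, k, hk => by
    simp only [isoRow, Bool.and_eq_true, beq_iff_eq] at h
    cases k with
    | zero => exact h.1
    | succ k =>
      have := isoRow_sound E M' s i v l (j + 1) h.2 k (by simpa using hk)
      rw [show j + (k + 1) = j + 1 + k by ring]
      exact this

lemma isoAll_sound (E M' : ℕ) (s : Bool) : ∀ (l : List ℕ) (a : ℕ),
    isoAll E M' s a l = true → ∀ (i j : ℕ) (hij : i < j) (hj : j < l.length),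
      col E (l[i]'(by omega)) l[j] = xor s (M'.testBit (8 * (a + j) + (a + i)))
  | [], _, _, i, j, _, hj => by simp at hj
  | v :: l, a, h, i, j, hij, hj => by
    simp only [isoAll, Bool.and_eq_true] at h
    cases j with
    | zero => omega
    | succ j =>
      cases i with
      | zero =>
        have := isoRow_sound E M' s a v l (a + 1) h.1 j (by simpa using hj)
        rw [show a + (j + 1) = a + 1 + j by ring]
        exact this
      | succ i =>
        have := isoAll_sound E M' s l (a + 1) h.2 i j (by omega) (by simpa using hj)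
        rw [show a + (j + 1) = a + 1 + j by ring, show a + (i + 1) = a + 1 + i by ring]
        exact this

lemma digs_length : ∀ (f x : ℕ), (digs f x).length = f
  | 0, _ => rfl
  | f + 1, x => by simp [digs, digs_length f]

/-- The coding `M` is realised by `n` vertices. -/
def Emb {V : Type} (c : V → V → Bool) (n M : ℕ) : Prop :=
  ∃ (g : ℕ → V) (s : Bool), (∀ i < n, ∀ j < n, i ≠ j → g i ≠ g j) ∧
    ∀ i j, i < j → j < n → c (g i) (g j) = xor s (M.testBit (8 * j + i))

lemma exists_mask (n : ℕ) (f : ℕ → Bool) : ∃ m < 2 ^ n, ∀ i < n, m.testBit i = f i := by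
  refine ⟨Nat.ofBits (fun i : Fin n => f i), Nat.ofBits_lt_two_pow _, ?_⟩
  intro i hi
  rw [Nat.testBit_ofBits_lt _ _ hi]

/-- Bits of the extension of a code by a row. -/
lemma ext_bit_old (n M r i j : ℕ) (hn : n ≤ 8) (hij : i < j) (hj : j < n) :
    (M ||| (r <<< (8 * n))).testBit (8 * j + i) = M.testBit (8 * j + i) := by
  rw [Nat.testBit_lor, Nat.testBit_shiftLeft]
  have : ¬ (8 * j + i ≥ 8 * n) := by omega
  simp [this]

lemma ext_bit_new (n M r i : ℕ) (hM : M < 2 ^ (8 * n)) :
    (M ||| (r <<< (8 * n))).testBit (8 * n + i) = r.testBit i := by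
  rw [Nat.testBit_lor, Nat.testBit_shiftLeft]
  have h1 : M.testBit (8 * n + i) = false :=
    Nat.testBit_lt_two_pow (lt_of_lt_of_le hM (Nat.pow_le_pow_right (by norm_num) (by omega)))
  simp [h1]

theorem rep_step {V : Type} (c : V → V → Bool) (hsym : ∀ u v, c u v = c v u)
    (hfree : ∀ n ≤ 8, ∀ g : ℕ → V, ∃ v, ∀ i < n, g i ≠ v)
    (hK : ∀ b : Bool, ¬ (K5m (fun u v => u ≠ v ∧ c u v = b) ∨ K33m (fun u v => u ≠ v ∧ c u v = b)))
    (n : ℕ) (hn : n ≤ 8) (T' len' M : ℕ) (ms is : List ℕ)
    (hchk : checkRep n T' len' M ms is = true)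
    (hT : ∀ t < len', ¬ Emb c (n + 1) (entry T' t)) : ¬ Emb c n M := by
  rintro ⟨g, s, hinj, hcol⟩
  simp only [checkRep, Bool.and_eq_true, List.all_eq_true] at hchk
  obtain ⟨hM, hms, his, hcov⟩ := hchk
  rw [blt_iff] at hM
  obtain ⟨v, hv⟩ := hfree n hn g
  let g' : ℕ → V := fun i => if i < n then g i else v
  have hg'1 : ∀ i, i < n → g' i = g i := fun i hi => if_pos hi
  have hg'2 : g' n = v := if_neg (lt_irrefl n)
  have hinj' : ∀ i ≤ n, ∀ j ≤ n, i ≠ j → g' i ≠ g' j := by
    intro i hi j hj hij
    rcases Nat.lt_or_eq_of_le hi with hi | rfl <;> rcases Nat.lt_or_eq_of_le hj with hj | rfl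
    · rw [hg'1 i hi, hg'1 j hj]; exact hinj i hi j hj hij
    · rw [hg'1 i hi, hg'2]; exact hv i hi
    · rw [hg'1 j hj, hg'2]; exact (hv j hj).symm
    · exact absurd rfl hij
  obtain ⟨m, hm, hmb⟩ := exists_mask n (fun i => xor s (c (g i) v))
  have h2n : 2 ^ n ≤ 256 := by
    calc 2 ^ n ≤ 2 ^ 8 := Nat.pow_le_pow_right (by norm_num) hn
      _ = 256 := by norm_num
  -- the colouring on the extended set
  have hE : ∀ i j, i < j → j ≤ n →
      c (g' i) (g' j) = xor s ((M ||| (m <<< (8 * n))).testBit (8 * j + i)) := by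
    intro i j hij hj
    rcases Nat.lt_or_eq_of_le hj with hj | rfl
    · rw [hg'1 i (by omega), hg'1 j hj, ext_bit_old n M m i j hn hij hj]
      exact hcol i j hij hj
    · rw [hg'1 i hij, hg'2, ext_bit_new _ M m i hM, hmb i hij]
      cases s <;> cases c (g i) v <;> rfl
  have hEc : ∀ i ≤ n, ∀ j ≤ n, i ≠ j →
      c (g' i) (g' j) = xor s (col (M ||| (m <<< (8 * n))) i j) := by
    intro i hi j hj hij
    rcases lt_or_gt_of_ne hij with h' | h'
    · rw [col_of_lt _ h']; exact hE i j h' hj
    · rw [hsym, col_comm _ hij, col_of_lt _ h']; exact hE j i h' hi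
  -- coverage
  have hbit : (orAll covM ms ||| orAll (fun I => 1 <<< (I % 256)) is).testBit m = true := by
    have h1 := Nat.eq_of_beq_eq_true hcov
    have h2 : ((orAll covM ms ||| orAll (fun I => 1 <<< (I % 256)) is) % 2 ^ (2 ^ n)).testBit m
        = true := by
      rw [h1, Nat.testBit_two_pow_sub_one]
      simpa using hm
    rw [Nat.testBit_mod_two_pow, Bool.and_eq_true] at h2
    exact h2.2
  rw [Nat.testBit_lor, Bool.or_eq_true] at hbit
  rcases hbit with hbit | hbit
  · -- a minor
    obtain ⟨x, hx, hxm⟩ := orAll_sound covM m ms hbit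
    have hmod := hms x hx
    unfold modelOK at hmod
    refine hK (xor s (x.testBit 0)) (minorOK_sound _ g' n _ _ _ _ hinj' ?_ hmod)
    have key : ∀ a b : ℕ, a < b → b ≤ n →
        (M ||| ((bif x.testBit 0 then mS x else (2 ^ n - 1) ^^^ mS x) <<< (8 * n))).testBit
          (8 * b + a) = x.testBit 0 →
        (M ||| (m <<< (8 * n))).testBit (8 * b + a) = x.testBit 0 := by
      intro a b hab hb h
      rcases Nat.lt_or_eq_of_le hb with hb | rfl
      · rw [ext_bit_old n M _ a b hn hab hb] at h ⊢
        exact h
      · rw [ext_bit_new _ M _ a hM] at h ⊢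
        have ha8 : a < 8 := by omega
        cases hb0 : x.testBit 0 with
        | true =>
          rw [hb0, cond_true] at h
          have h3 := up_sound XS1 (mS x) m (by rw [covM, hb0, cond_true] at hxm; exact hxm) a
            (by simpa [XS1] using ha8) h
          have h4 := XS1_spec a ha8 m (by omega)
          rw [List.getD_eq_getElem _ _ (by simpa [XS1] using ha8)] at h4
          rw [← h4]; exact h3
        | false =>
          rw [hb0, cond_false, Nat.testBit_xor, Nat.testBit_two_pow_sub_one] at h
          have h' : (mS x).testBit a = true := by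
            have : decide (a < b) = true := by simpa using hab
            rw [this] at h
            cases hq : (mS x).testBit a
            · rw [hq] at h; simp at h
            · rfl
          have h3 := up_sound XS0 (mS x) m (by rw [covM, hb0, cond_false] at hxm; exact hxm) a
            (by simpa [XS0] using ha8) h'
          have h4 := XS0_spec a ha8 m (by omega)
          rw [List.getD_eq_getElem _ _ (by simpa [XS0] using ha8)] at h4
          rw [h3] at h4
          cases hq : m.testBit a
          · rfl
          · rw [hq] at h4; simp at h4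
    intro a ha b hb hab hcolE
    refine ⟨hinj' a ha b hb hab, ?_⟩
    rw [hEc a ha b hb hab]
    congr 1
    rcases lt_or_gt_of_ne hab with h' | h'
    · rw [col_of_lt _ h'] at hcolE ⊢
      exact key a b h' hb hcolE
    · rw [col_comm _ hab, col_of_lt _ h'] at hcolE ⊢
      exact key b a h' ha hcolE
  · -- a smaller table entry
    obtain ⟨I, hI, hIm⟩ := orAll_sound _ m is hbit
    have hIm' : I % 256 = m := by
      rw [Nat.testBit_shiftLeft, Bool.and_eq_true] at hIm
      have h1 : m ≥ I % 256 := by simpa using hIm.1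
      have h2 := hIm.2
      by_contra hne
      have h3 : m - I % 256 ≠ 0 := by omega
      rw [Nat.testBit_one_eq_true_iff_self_eq_zero] at h2
      exact h3 h2
    have hiso := his I hI
    simp only [isoOK, Bool.and_eq_true] at hiso
    obtain ⟨h1, h2, h3⟩ := hiso
    rw [blt_iff] at h1
    obtain ⟨n1, n2, -⟩ := nodupB_sound _ _ _ h2
    have hlen := digs_length (n + 1) (I / 16777216)
    set l := digs (n + 1) (I / 16777216) with hl
    rw [hIm'] at h3
    refine hT _ h1 ⟨fun i => g' (l.getD i 0), xor s (I.testBit 8), ?_, ?_⟩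
    · intro i hi j hj hij
      have hi' : i < l.length := by omega
      have hj' : j < l.length := by omega
      beta_reduce
      rw [List.getD_eq_getElem _ _ hi', List.getD_eq_getElem _ _ hj']
      refine hinj' _ (n2 _ (List.getElem_mem hi')) _ (n2 _ (List.getElem_mem hj')) ?_
      intro he
      exact hij ((List.Nodup.getElem_inj_iff n1).mp he)
    · intro i j hij hj
      have hi' : i < l.length := by omega
      have hj' : j < l.length := by omega
      beta_reduce
      rw [List.getD_eq_getElem _ _ hi', List.getD_eq_getElem _ _ hj']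
      rw [hEc _ (n2 _ (List.getElem_mem hi')) _ (n2 _ (List.getElem_mem hj'))
        (fun he => hij.ne ((List.Nodup.getElem_inj_iff n1).mp he))]
      rw [isoAll_sound _ _ _ l 0 h3 i j hij hj', zero_add, zero_add, Bool.xor_assoc]

lemma checkLevel_sound (n T T' len' : ℕ) : ∀ (D : List (List ℕ × List ℕ)) (k : ℕ),
    checkLevel n T T' len' k D = true → ∀ (i : ℕ) (hi : i < D.length),
      checkRep n T' len' (entry T (k + i)) (D[i]).1 (D[i]).2 = true
  | [], _, _, i, hi => by simp at hi
  | d :: D, k, h, i, hi => by
    simp only [checkLevel, Bool.and_eq_true] at h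
    cases i with
    | zero => exact h.1
    | succ i =>
      have := checkLevel_sound n T T' len' D (k + 1) h.2 i (by simpa using hi)
      rw [show k + (i + 1) = k + 1 + i by ring]
      exact this

/-- The assumptions on the colouring. -/
structure Hyp {V : Type} (c : V → V → Bool) : Prop where
  sym : ∀ u v, c u v = c v u
  free : ∀ n ≤ 8, ∀ g : ℕ → V, ∃ v, ∀ i < n, g i ≠ v
  noK : ∀ b : Bool, ¬ (K5m (fun u v => u ≠ v ∧ c u v = b) ∨ K33m (fun u v => u ≠ v ∧ c u v = b))

theorem chunk {V : Type} {c : V → V → Bool} (H : Hyp c) (n : ℕ) (hn : n ≤ 8)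
    (T T' len' a k : ℕ) (D : List (List ℕ × List ℕ)) (h : checkLevel n T T' len' a D = true)
    (hl : D.length = k) (hT : ∀ t < len', ¬ Emb c (n + 1) (entry T' t)) :
    ∀ t, a ≤ t → t < a + k → ¬ Emb c n (entry T t) := by
  intro t h1 h2
  have hi : t - a < D.length := by omega
  have := checkLevel_sound n T T' len' D a h (t - a) hi
  rw [show a + (t - a) = t by omega] at this
  exact rep_step c H.sym H.free H.noK n hn T' len' _ _ _ this hT

end Pool.Agent.W136.K9
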