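import Mathlib
import Pool.Agent.W136.K9.Step
import Pool.Agent.W174.K9.Top
import Pool.Agent.W136.K9.D1_0
import Pool.Agent.W136.K9.D2_0
import Pool.Agent.W136.K9.D3_0
import Pool.Agent.W136.K9.D4_0
import Pool.Agent.W136.K9.D5_0
import Pool.Agent.W136.K9.D6_0
import Pool.Agent.W136.K9.D6_16
import Pool.Agent.W136.K9.D6_32
import Pool.Agent.W136.K9.D6_48
import Pool.Agent.W136.K9.D7_0
import Pool.Agent.W136.K9.D7_38
import Pool.Agent.W136.K9.D7_76
import Pool.Agent.W136.K9.D7_114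
import Pool.Agent.W136.K9.D7_152
import Pool.Agent.W136.K9.D7_190
import Pool.Agent.W136.K9.D7_228
import Pool.Agent.W136.K9.D7_266
import Pool.Agent.W136.K9.D8_0
import Pool.Agent.W136.K9.D8_69
import Pool.Agent.W136.K9.D8_138
import Pool.Agent.W136.K9.D8_207
import Pool.Agent.W136.K9.D8_276
import Pool.Agent.W136.K9.D8_345
import Pool.Agent.W136.K9.D8_414
import Pool.Agent.W136.K9.D8_483
import Pool.Agent.W136.K9.D8_552
import Pool.Agent.W136.K9.D8_621
import Pool.Agent.W136.K9.D8_690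
import Pool.Agent.W136.K9.D8_759
import Pool.Agent.W136.K9.D8_828
import Pool.Agent.W136.K9.D8_897
import Pool.Agent.W136.K9.D8_966
import Pool.Agent.W136.K9.D8_1035

set_option autoImplicit false

namespace Pool.Agent.W136.K9

variable {V : Type} {c : V → V → Bool}

theorem lev8 (H : Hyp c) : ∀ t < 1104, ¬ Emb c 8 (entry T8 t) := by
  intro t ht
  have h0 : ∀ t < 0, ¬ Emb c 9 (entry 0 t) := fun t ht => absurd ht (by omega)
  rcases lt_or_ge t 69 with h1 | h1
  · exact chunk H 8 (by norm_num) T8 0 0 0 69 D8_0 D8_0_ok D8_0_len h0 t (by omega) (by omega)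
  rcases lt_or_ge t 138 with h2 | h2
  · exact chunk H 8 (by norm_num) T8 0 0 69 69 D8_69 D8_69_ok D8_69_len h0 t (by omega) (by omega)
  rcases lt_or_ge t 207 with h3 | h3
  · exact chunk H 8 (by norm_num) T8 0 0 138 69 D8_138 D8_138_ok D8_138_len h0 t (by omega) (by omega)
  rcases lt_or_ge t 276 with h4 | h4
  · exact chunk H 8 (by norm_num) T8 0 0 207 69 D8_207 D8_207_ok D8_207_len h0 t (by omega) (by omega)
  rcases lt_or_ge t 345 with h5 | h5
  · exact chunk H 8 (by norm_num) T8 0 0 276 69 D8_276 D8_276_ok D8_276_len h0 t (by omega) (by omega)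
  rcases lt_or_ge t 414 with h6 | h6
  · exact chunk H 8 (by norm_num) T8 0 0 345 69 D8_345 D8_345_ok D8_345_len h0 t (by omega) (by omega)
  rcases lt_or_ge t 483 with h7 | h7
  · exact chunk H 8 (by norm_num) T8 0 0 414 69 D8_414 D8_414_ok D8_414_len h0 t (by omega) (by omega)
  rcases lt_or_ge t 552 with h8 | h8
  · exact chunk H 8 (by norm_num) T8 0 0 483 69 D8_483 D8_483_ok D8_483_len h0 t (by omega) (by omega)
  rcases lt_or_ge t 621 with h9 | h9
  · exact chunk H 8 (by norm_num) T8 0 0 552 69 D8_552 D8_552_ok D8_552_len h0 t (by omega) (by omega)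
  rcases lt_or_ge t 690 with h10 | h10
  · exact chunk H 8 (by norm_num) T8 0 0 621 69 D8_621 D8_621_ok D8_621_len h0 t (by omega) (by omega)
  rcases lt_or_ge t 759 with h11 | h11
  · exact chunk H 8 (by norm_num) T8 0 0 690 69 D8_690 D8_690_ok D8_690_len h0 t (by omega) (by omega)
  rcases lt_or_ge t 828 with h12 | h12
  · exact chunk H 8 (by norm_num) T8 0 0 759 69 D8_759 D8_759_ok D8_759_len h0 t (by omega) (by omega)
  rcases lt_or_ge t 897 with h13 | h13
  · exact chunk H 8 (by norm_num) T8 0 0 828 69 D8_828 D8_828_ok D8_828_len h0 t (by omega) (by omega)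
  rcases lt_or_ge t 966 with h14 | h14
  · exact chunk H 8 (by norm_num) T8 0 0 897 69 D8_897 D8_897_ok D8_897_len h0 t (by omega) (by omega)
  rcases lt_or_ge t 1035 with h15 | h15
  · exact chunk H 8 (by norm_num) T8 0 0 966 69 D8_966 D8_966_ok D8_966_len h0 t (by omega) (by omega)
  exact chunk H 8 (by norm_num) T8 0 0 1035 69 D8_1035 D8_1035_ok D8_1035_len h0 t (by omega) (by omega)

theorem lev7 (H : Hyp c) : ∀ t < 300, ¬ Emb c 7 (entry T7 t) := by
  intro t ht
  have h0 := lev8 H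
  rcases lt_or_ge t 38 with h1 | h1
  · exact chunk H 7 (by norm_num) T7 T8 1104 0 38 D7_0 D7_0_ok D7_0_len h0 t (by omega) (by omega)
  rcases lt_or_ge t 76 with h2 | h2
  · exact chunk H 7 (by norm_num) T7 T8 1104 38 38 D7_38 D7_38_ok D7_38_len h0 t (by omega) (by omega)
  rcases lt_or_ge t 114 with h3 | h3
  · exact chunk H 7 (by norm_num) T7 T8 1104 76 38 D7_76 D7_76_ok D7_76_len h0 t (by omega) (by omega)
  rcases lt_or_ge t 152 with h4 | h4
  · exact chunk H 7 (by norm_num) T7 T8 1104 114 38 D7_114 D7_114_ok D7_114_len h0 t (by omega) (by omega)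
  rcases lt_or_ge t 190 with h5 | h5
  · exact chunk H 7 (by norm_num) T7 T8 1104 152 38 D7_152 D7_152_ok D7_152_len h0 t (by omega) (by omega)
  rcases lt_or_ge t 228 with h6 | h6
  · exact chunk H 7 (by norm_num) T7 T8 1104 190 38 D7_190 D7_190_ok D7_190_len h0 t (by omega) (by omega)
  rcases lt_or_ge t 266 with h7 | h7
  · exact chunk H 7 (by norm_num) T7 T8 1104 228 38 D7_228 D7_228_ok D7_228_len h0 t (by omega) (by omega)
  exact chunk H 7 (by norm_num) T7 T8 1104 266 34 D7_266 D7_266_ok D7_266_len h0 t (by omega) (by omega)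

theorem lev6 (H : Hyp c) : ∀ t < 64, ¬ Emb c 6 (entry T6 t) := by
  intro t ht
  have h0 := lev7 H
  rcases lt_or_ge t 16 with h1 | h1
  · exact chunk H 6 (by norm_num) T6 T7 300 0 16 D6_0 D6_0_ok D6_0_len h0 t (by omega) (by omega)
  rcases lt_or_ge t 32 with h2 | h2
  · exact chunk H 6 (by norm_num) T6 T7 300 16 16 D6_16 D6_16_ok D6_16_len h0 t (by omega) (by omega)
  rcases lt_or_ge t 48 with h3 | h3
  · exact chunk H 6 (by norm_num) T6 T7 300 32 16 D6_32 D6_32_ok D6_32_len h0 t (by omega) (by omega)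
  exact chunk H 6 (by norm_num) T6 T7 300 48 16 D6_48 D6_48_ok D6_48_len h0 t (by omega) (by omega)

theorem lev5 (H : Hyp c) : ∀ t < 17, ¬ Emb c 5 (entry T5 t) := by
  intro t ht
  have h0 := lev6 H
  exact chunk H 5 (by norm_num) T5 T6 64 0 17 D5_0 D5_0_ok D5_0_len h0 t (by omega) (by omega)

theorem lev4 (H : Hyp c) : ∀ t < 6, ¬ Emb c 4 (entry T4 t) := by
  intro t ht
  have h0 := lev5 H
  exact chunk H 4 (by norm_num) T4 T5 17 0 6 D4_0 D4_0_ok D4_0_len h0 t (by omega) (by omega)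

theorem lev3 (H : Hyp c) : ∀ t < 2, ¬ Emb c 3 (entry T3 t) := by
  intro t ht
  have h0 := lev4 H
  exact chunk H 3 (by norm_num) T3 T4 6 0 2 D3_0 D3_0_ok D3_0_len h0 t (by omega) (by omega)

theorem lev2 (H : Hyp c) : ∀ t < 1, ¬ Emb c 2 (entry T2 t) := by
  intro t ht
  have h0 := lev3 H
  exact chunk H 2 (by norm_num) T2 T3 2 0 1 D2_0 D2_0_ok D2_0_len h0 t (by omega) (by omega)

theorem lev1 (H : Hyp c) : ∀ t < 1, ¬ Emb c 1 (entry T1 t) := by
  intro t ht
  have h0 := lev2 H
  exact chunk H 1 (by norm_num) T1 T2 1 0 1 D1_0 D1_0_ok D1_0_len h0 t (by omega) (by omega)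

theorem comb (c : Fin 9 → Fin 9 → Bool) (hsym : ∀ u v, c u v = c v u) :
    ∃ b : Bool, K5m (fun u v => u ≠ v ∧ c u v = b) ∨ K33m (fun u v => u ≠ v ∧ c u v = b) := by
  by_contra hno
  push Not at hno
  have H : Hyp c := by
    refine ⟨hsym, ?_, ?_⟩
    · intro n hn g
      by_contra hc
      push Not at hc
      have hsurj : Function.Surjective (fun i : Fin n => g i) := by
        intro v
        obtain ⟨i, hi, h⟩ := hc v
        exact ⟨⟨i, hi⟩, h⟩
      have := Fintype.card_le_of_surjective _ hsurj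
      simp only [Fintype.card_fin] at this
      omega
    · intro b hb
      rcases hb with hb | hb
      · exact (hno b).1 hb
      · exact (hno b).2 hb
  refine lev1 H 0 (by norm_num) ⟨fun _ => 0, false, ?_, ?_⟩
  · intro i hi j hj hij
    omega
  · intro i j hij hj
    omega

theorem nonbiplanar (c : Fin 9 → Fin 9 → Fin 2) (p : Fin 2 → Fin 9 → ℂ)
    (γ : Fin 2 → Fin 9 → Fin 9 → ℝ → ℂ) (hval : Val (⊤ : SimpleGraph (Fin 9)) c p γ) :
    Cr (⊤ : SimpleGraph (Fin 9)) c γ ≠ ∅ := by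
  intro hcr
  have hsym : ∀ u v : Fin 9, decide (c u v = 1) = decide (c v u = 1) := by
    intro u v
    by_cases h : u = v
    · rw [h]
    · rw [hval.1 u v (by simpa using h)]
  obtain ⟨b, hb⟩ := comb (fun u v => decide (c u v = 1)) hsym
  have hrel : (fun u v : Fin 9 => u ≠ v ∧ decide (c u v = 1) = b)
      = fun u v => (⊤ : SimpleGraph (Fin 9)).Adj u v ∧ c u v = (if b then 1 else 0) := by
    funext u v
    simp only [SimpleGraph.top_adj, eq_iff_iff, and_congr_right_iff]
    intro _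
    have key : ∀ (b : Bool) (x : Fin 2), decide (x = 1) = b ↔ x = if b = true then 1 else 0 := by
      decide
    exact key b _
  rw [hrel] at hb
  rcases hb with ⟨B, h1, h2, h3⟩ | ⟨B, h1, h2, h3⟩
  · exact Pool.Agent.W174.K9.top5 (Fin 9) ⊤ c p γ _ hval hcr B h1 h2 h3
  · exact Pool.Agent.W174.K9.top33 (Fin 9) ⊤ c p γ _ hval hcr B h1 h2 h3

end Pool.Agent.W136.K9
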